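import Mathlib
import Pool.Agent.D0H73.MK.Stm

/-! # Project MK, module PIECE: the pieces of a projectional resolution have skeletons -/

set_option autoImplicit false

open Set Topology Filter Cardinal Ordinal

namespace Pool.Agent.D0H65.MK

open Pool.Agent.D0H73.MK

universe u

section basics

variable {𝕜 : Type} [RCLike 𝕜] {X : Type u} [NormedAddCommGroup X] [NormedSpace 𝕜 X]
  {Γ : Type u} [PartialOrder Γ] {P : Γ → X →L[𝕜] X} {r : ℝ}

theorem mem_range (h : IsSkel P) (s : Γ) (x : X) : x ∈ range (P s) ↔ P s x = x := by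
  constructor
  · rintro ⟨y, rfl⟩
    exact h.proj s y
  · intro hx
    exact ⟨x, hx⟩

theorem range_mono (h : IsSkel P) {s t : Γ} (hst : s ≤ t) : range (P s) ⊆ range (P t) := by
  rintro _ ⟨y, rfl⟩
  exact ⟨P s y, (h.comm s t hst y).2⟩

theorem closed_range (h : IsSkel P) (s : Γ) : IsClosed (range (P s)) := by
  have h1 : range (P s) = {x | P s x = x} := by
    ext x
    exact mem_range h s x
  rw [h1]
  exact isClosed_eq (P s).continuous continuous_id

theorem r_nonneg (h : IsBSkel P r) : 0 ≤ r := by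
  obtain ⟨s⟩ := h.nonempty
  exact (norm_nonneg _).trans (h.bdd s)

theorem tendsto (h : IsBSkel P r) {f : ℕ → Γ} (hf : Monotone f) {t : Γ}
    (ht : IsLUB (range f) t) (x : X) : Tendsto (fun k => P (f k) x) atTop (𝓝 (P t x)) := by
  have hr := r_nonneg h
  rw [Metric.tendsto_atTop]
  intro ε hε
  have hy : P t x ∈ closure (⋃ n, range (P (f n))) := by
    rw [← h.sup f hf t ht]
    exact ⟨x, rfl⟩
  have hδ : 0 < ε / (r + 1) := by positivity
  obtain ⟨z, hz, hd⟩ := Metric.mem_closure_iff.1 hy _ hδ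
  obtain ⟨n, hn⟩ := mem_iUnion.1 hz
  refine ⟨n, fun k hk => ?_⟩
  have hle : f k ≤ t := ht.1 ⟨k, rfl⟩
  have h1 : P (f k) x = P (f k) (P t x) := ((h.comm (f k) t hle x).1).symm
  have h2 : P (f k) z = z := (mem_range h.toIsSkel _ _).1 (range_mono h.toIsSkel (hf hk) hn)
  have h3 : P (f k) x - P t x = P (f k) (P t x - z) + (z - P t x) := by
    rw [map_sub, h2, h1]
    abel
  rw [dist_eq_norm, h3]
  have h4 : ‖P (f k) (P t x - z)‖ ≤ r * ‖P t x - z‖ :=
    ((P (f k)).le_opNorm _).trans (mul_le_mul_of_nonneg_right (h.bdd _) (norm_nonneg _))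
  rw [dist_eq_norm] at hd
  calc ‖P (f k) (P t x - z) + (z - P t x)‖ ≤ ‖P (f k) (P t x - z)‖ + ‖z - P t x‖ := norm_add_le _ _
    _ ≤ r * ‖P t x - z‖ + ‖P t x - z‖ := by rw [norm_sub_rev z]; linarith
    _ = (r + 1) * ‖P t x - z‖ := by ring
    _ < (r + 1) * (ε / (r + 1)) := mul_lt_mul_of_pos_left hd (by linarith)
    _ = ε := by field_simp

/-- upper bounds of finite sets -/
theorem dir_fin {T : Set Γ} (hT : IsDir T) (F : Finset Γ) : (∀ x ∈ F, x ∈ T) →
    ∃ v ∈ T, ∀ x ∈ F, x ≤ v := by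
  classical
  induction F using Finset.induction_on with
  | empty =>
    intro _
    obtain ⟨v, hv⟩ := hT.1
    exact ⟨v, hv, by simp⟩
  | insert a F ha ih =>
    intro h
    obtain ⟨v, hv, hv1⟩ := ih fun x hx => h x (Finset.mem_insert_of_mem hx)
    obtain ⟨w, hw, hw1, hw2⟩ := hT.2 v hv a (h a (Finset.mem_insert_self _ _))
    refine ⟨w, hw, fun x hx => ?_⟩
    rcases Finset.mem_insert.1 hx with rfl | hx
    · exact hw2
    · exact (hv1 x hx).trans hw1

/-- a sequence in a directed set is dominated by a monotone one -/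
theorem dom {T : Set Γ} (hT : IsDir T) (g : ℕ → Γ) (hg : ∀ k, g k ∈ T) :
    ∃ u : ℕ → Γ, Monotone u ∧ (∀ k, u k ∈ T) ∧ ∀ k, g k ≤ u k := by
  classical
  obtain ⟨f, hf, hfr⟩ := exists_seq_of_forall_finset_exists
    (fun x : ℕ × Γ => x.2 ∈ T ∧ ∀ j ≤ x.1, g j ≤ x.2)
    (fun x y : ℕ × Γ => x.1 < y.1 ∧ x.2 ≤ y.2) (by
      intro s hs
      obtain ⟨v, hv, hv1⟩ := dir_fin hT
        (s.image (fun x => x.2) ∪ (Finset.range (s.sup (fun x => x.1) + 2)).image g) (by
          intro x hx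
          rcases Finset.mem_union.1 hx with hx | hx
          · obtain ⟨y, hy, rfl⟩ := Finset.mem_image.1 hx
            exact (hs y hy).1
          · obtain ⟨j, -, rfl⟩ := Finset.mem_image.1 hx
            exact hg j)
      refine ⟨(s.sup (fun x => x.1) + 1, v), ⟨hv, fun j hj => ?_⟩, fun x hx => ⟨?_, ?_⟩⟩
      · exact hv1 _ (Finset.mem_union_right _ (Finset.mem_image.2 ⟨j, Finset.mem_range.2 (by
          change j ≤ s.sup (fun x => x.1) + 1 at hj
          omega), rfl⟩))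
      · exact Nat.lt_succ_of_le (Finset.le_sup (f := fun x : ℕ × Γ => x.1) hx)
      · exact hv1 _ (Finset.mem_union_left _ (Finset.mem_image.2 ⟨x, hx, rfl⟩)))
  have hge : ∀ k, k ≤ (f k).1 := by
    intro k
    induction k with
    | zero => exact Nat.zero_le _
    | succ k ih => exact Nat.succ_le_of_lt (ih.trans_lt (hfr k (k + 1) (Nat.lt_succ_self k)).1)
  refine ⟨fun k => (f k).2, fun m n hmn => ?_, fun k => (hf k).1, fun k => (hf k).2 k (hge k)⟩
  rcases eq_or_lt_of_le hmn with rfl | h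
  · exact le_rfl
  · exact (hfr m n h).2

/-- a separable subset of the range of a limit operator -/
theorem sep_seq (h : IsSkel P) {T : Set Γ} (hT : IsDir T) (A : Set X)
    (hA : TopologicalSpace.IsSeparable A) (hAT : A ⊆ closure (⋃ t ∈ T, range (P t))) :
    ∃ u : ℕ → Γ, Monotone u ∧ (∀ k, u k ∈ T) ∧ A ⊆ closure (⋃ k, range (P (u k))) := by
  classical
  rcases A.eq_empty_or_nonempty with rfl | hne
  · obtain ⟨t, ht⟩ := hT.1
    exact ⟨fun _ => t, fun _ _ _ => le_rfl, fun _ => ht, empty_subset _⟩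
  obtain ⟨c, hc, hcA⟩ := hA
  -- every point of `c ∩ ...` is not needed: take a countable dense subset of `A`
  obtain ⟨D, hDA, hD, hAD⟩ : ∃ D ⊆ A, D.Countable ∧ A ⊆ closure D := by
    have h1 : TopologicalSpace.IsSeparable A := ⟨c, hc, hcA⟩
    exact h1.exists_countable_dense_subset
  have hDne : D.Nonempty := by
    obtain ⟨x, hx⟩ := hne
    have := hAD hx
    exact closure_nonempty_iff.1 ⟨x, this⟩
  obtain ⟨d, rfl⟩ := hD.exists_eq_range hDne
  have h2 : ∀ k m : ℕ, ∃ t ∈ T, ∃ z ∈ range (P t), dist (d k) z < 1 / ((m : ℝ) + 1) := by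
    intro k m
    obtain ⟨z, hz, hd⟩ := Metric.mem_closure_iff.1 (hAT (hDA ⟨k, rfl⟩)) (1 / ((m : ℝ) + 1))
      (by positivity)
    obtain ⟨t, ht, hz⟩ := mem_iUnion₂.1 hz
    exact ⟨t, ht, z, hz, hd⟩
  choose g hg z hz hzd using h2
  obtain ⟨u, hu, huT, hgu⟩ := dom hT (fun i => g i.unpair.1 i.unpair.2) (fun i => hg _ _)
  refine ⟨u, hu, huT, hAD.trans (closure_minimal ?_ isClosed_closure)⟩
  rintro _ ⟨k, rfl⟩
  rw [Metric.mem_closure_iff]
  intro ε hε
  obtain ⟨m, hm⟩ := exists_nat_one_div_lt hε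
  refine ⟨z k m, mem_iUnion.2 ⟨Nat.pair k m, ?_⟩, (hzd k m).trans hm⟩
  have h3 := hgu (Nat.pair k m)
  simp only [Nat.unpair_pair] at h3
  exact range_mono h h3 (hz k m)

/-- the two interlaced sequences of the proof of cofinality -/
theorem interlace {T T' : Set Γ} (hT : IsDir T) (hT' : IsDir T') (hTT : T ⊆ T')
    (τ : Γ → ℕ → Γ) (hτ : ∀ a j, τ a j ∈ T) (u0 : ℕ → Γ) (hu0 : Monotone u0)
    (hu0T : ∀ k, u0 k ∈ T') : ∃ a t : ℕ → Γ, Monotone a ∧ Monotone t ∧ (∀ k, a k ∈ T') ∧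
      (∀ k, t k ∈ T) ∧ (∀ k, t k ≤ a k) ∧ (∀ k, u0 k ≤ a k) ∧
      ∀ i j, ∃ k, τ (a i) j ≤ t k := by
  classical
  obtain ⟨f, hf, hfr⟩ := exists_seq_of_forall_finset_exists
    (fun x : ℕ × Γ × Γ => x.2.1 ∈ T' ∧ x.2.2 ∈ T ∧ x.2.2 ≤ x.2.1 ∧ u0 x.1 ≤ x.2.1)
    (fun x y : ℕ × Γ × Γ => x.1 < y.1 ∧ x.2.1 ≤ y.2.1 ∧ x.2.2 ≤ y.2.2 ∧
      ∀ j ≤ y.1, τ x.2.1 j ≤ y.2.2) (by
      intro s hs
      obtain ⟨t, ht, ht1⟩ := dir_fin hT
        (s.image (fun x => x.2.2) ∪ (s ×ˢ Finset.range (s.sup (fun x => x.1) + 2)).image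
          (fun q => τ q.1.2.1 q.2)) (by
          intro x hx
          rcases Finset.mem_union.1 hx with hx | hx
          · obtain ⟨y, hy, rfl⟩ := Finset.mem_image.1 hx
            exact (hs y hy).2.1
          · obtain ⟨j, -, rfl⟩ := Finset.mem_image.1 hx
            exact hτ _ _)
      obtain ⟨a, ha, ha1⟩ := dir_fin hT'
        (s.image (fun x => x.2.1) ∪ {t, u0 (s.sup (fun x => x.1) + 1)}) (by
          intro x hx
          rcases Finset.mem_union.1 hx with hx | hx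
          · obtain ⟨y, hy, rfl⟩ := Finset.mem_image.1 hx
            exact (hs y hy).1
          · rcases Finset.mem_insert.1 hx with rfl | hx
            · exact hTT ht
            · rw [Finset.mem_singleton] at hx
              rw [hx]
              exact hu0T _)
      refine ⟨(s.sup (fun x => x.1) + 1, a, t), ⟨ha, ht, ?_, ?_⟩, fun x hx => ⟨?_, ?_, ?_, ?_⟩⟩
      · exact ha1 _ (Finset.mem_union_right _ (Finset.mem_insert_self _ _))
      · exact ha1 _ (Finset.mem_union_right _ (Finset.mem_insert_of_mem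
          (Finset.mem_singleton_self _)))
      · exact Nat.lt_succ_of_le (Finset.le_sup (f := fun x : ℕ × Γ × Γ => x.1) hx)
      · exact ha1 _ (Finset.mem_union_left _ (Finset.mem_image.2 ⟨x, hx, rfl⟩))
      · exact ht1 _ (Finset.mem_union_left _ (Finset.mem_image.2 ⟨x, hx, rfl⟩))
      · intro j hj
        refine ht1 _ (Finset.mem_union_right _ (Finset.mem_image.2 ⟨(x, j), ?_, rfl⟩))
        change j ≤ s.sup (fun x => x.1) + 1 at hj
        exact Finset.mem_product.2 ⟨hx, Finset.mem_range.2 (by omega)⟩)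
  have hge : ∀ k, k ≤ (f k).1 := by
    intro k
    induction k with
    | zero => exact Nat.zero_le _
    | succ k ih => exact Nat.succ_le_of_lt (ih.trans_lt (hfr k (k + 1) (Nat.lt_succ_self k)).1)
  refine ⟨fun k => (f k).2.1, fun k => (f k).2.2, fun m n hmn => ?_, fun m n hmn => ?_,
    fun k => (hf k).1, fun k => (hf k).2.1, fun k => (hf k).2.2.1,
    fun k => (hu0 (hge k)).trans (hf k).2.2.2, fun i j => ?_⟩
  · rcases eq_or_lt_of_le hmn with rfl | h
    · exact le_rfl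
    · exact (hfr m n h).2.1
  · rcases eq_or_lt_of_le hmn with rfl | h
    · exact le_rfl
    · exact (hfr m n h).2.2.1
  · refine ⟨max (i + 1) j, ?_⟩
    exact (hfr i (max (i + 1) j) (lt_of_lt_of_le (Nat.lt_succ_self i) (le_max_left _ _))).2.2.2 j
      ((le_max_right _ _).trans (hge _))

/-- the suprema of monotone sequences -/
theorem sup_le_sup {f g : ℕ → Γ} {s t : Γ} (hs : IsLUB (range f) s) (ht : IsLUB (range g) t)
    (h : ∀ i, ∃ j, f i ≤ g j) : s ≤ t := by
  refine hs.2 ?_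
  rintro _ ⟨i, rfl⟩
  obtain ⟨j, hj⟩ := h i
  exact hj.trans (ht.1 ⟨j, rfl⟩)

end basics

/-- Module PIECE. -/
theorem t_PIECE : S_PIECE.{u} := by
  intro 𝕜 _ X _ _ Γ _ P r h T T' L L' hT hT' hTT hL hL'
  classical
  have hs := h.toIsSkel
  -- the composites
  have hL'L : ∀ x, L' (L x) = L x := by
    intro x
    have h1 : L x ∈ range L' := by
      have h2 : L x ∈ range L := ⟨x, rfl⟩
      rw [hL.rng] at h2
      rw [hL'.rng]
      exact closure_mono (biUnion_subset_biUnion_left hTT) h2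
    obtain ⟨y, hy⟩ := h1
    rw [← hy]
    exact hL'.idem y
  have hLL' : ∀ x, L (L' x) = L x := by
    intro x
    rw [← sub_eq_zero, ← norm_le_zero_iff]
    refine le_of_forall_pos_le_add fun ε hε => ?_
    obtain ⟨t0, ht0, h0⟩ := hL.lim (L' x) (ε / 2) (by positivity)
    obtain ⟨t1, ht1, h1⟩ := hL.lim x (ε / 2) (by positivity)
    obtain ⟨v, hv, hv0, hv1⟩ := hT.2 t0 ht0 t1 ht1
    have e0 := h0 v hv hv0
    have e1 := h1 v hv hv1
    rw [hL'.left v (hTT hv) x] at e0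
    have e2 : L (L' x) - L x = (P v x - L x) - (P v x - L (L' x)) := by abel
    rw [e2, zero_add]
    refine (norm_sub_le _ _).trans ?_
    linarith
  have hW : ∀ x, x ∈ rng (L' - L) ↔ L' x = x ∧ L x = 0 := by
    intro x
    constructor
    · rintro ⟨y, hy⟩
      have hy' : L' y - L y = x := hy
      rw [← hy']
      refine ⟨?_, ?_⟩
      · rw [map_sub, hL'.idem, hL'L]
      · rw [map_sub, hLL', hL.idem, _root_.sub_self]
    · rintro ⟨h1, h2⟩
      refine ⟨x, ?_⟩
      change L' x - L x = x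
      rw [h1, h2, _root_.sub_zero]
  -- `L' (P s x) = P s x` below a supremum of a sequence of `T'`
  have hfix : ∀ (u : ℕ → Γ) (w : Γ), Monotone u → (∀ k, u k ∈ T') → IsLUB (range u) w →
      ∀ s, s ≤ w → ∀ x, L' (P s x) = P s x := by
    intro u w hu huT hw s hsw x
    have h1 : P s x ∈ range L' := by
      have h2 : P s x ∈ range (P w) := range_mono hs hsw ⟨x, rfl⟩
      rw [hs.sup u hu w hw] at h2
      rw [hL'.rng]
      refine closure_mono (iUnion_subset fun k => ?_) h2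
      exact subset_biUnion_of_mem (u := fun t => range (P t)) (huT k)
    obtain ⟨y, hy⟩ := h1
    rw [← hy]
    exact hL'.idem y
  -- the sequences `τ`
  have hτ : ∀ a : Γ, ∃ τ : ℕ → Γ, Monotone τ ∧ (∀ k, τ k ∈ T) ∧
      range (fun x => L (P a x)) ⊆ closure (⋃ k, range (P (τ k))) := by
    intro a
    refine sep_seq hs hT _ ?_ ?_
    · have h1 : range (fun x => L (P a x)) = L '' range (P a) := by
        rw [← range_comp]
        rfl
      rw [h1]
      exact (hs.separable a).image L.continuous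
    · rintro _ ⟨x, rfl⟩
      rw [← hL.rng]
      exact ⟨P a x, rfl⟩
  choose τ hτm hτT hτr using hτ
  set S : Set Γ := {s | (∃ u : ℕ → Γ, Monotone u ∧ (∀ k, u k ∈ T') ∧ ∃ w, IsLUB (range u) w ∧ s ≤ w) ∧
    ∀ x ∈ rng (L' - L), L (P s x) = 0} with hS
  -- cofinality
  have hcof : ∀ (u0 : ℕ → Γ) (w0 : Γ), Monotone u0 → (∀ k, u0 k ∈ T') → IsLUB (range u0) w0 →
      ∃ s ∈ S, w0 ≤ s := by
    intro u0 w0 hu0 hu0T hw0
    obtain ⟨a, t, ha, ht, haT, htT, hta, hua, hτa⟩ := interlace hT hT' hTT τ hτT u0 hu0 hu0T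
    obtain ⟨s, hsup⟩ := hs.exists_sup a ha
    obtain ⟨t', ht'⟩ := hs.exists_sup t ht
    have hts : t' ≤ s := sup_le_sup ht' hsup fun i => ⟨i, hta i⟩
    refine ⟨s, ⟨⟨a, ha, haT, s, hsup, le_rfl⟩, fun x hx => ?_⟩,
      sup_le_sup hw0 hsup fun i => ⟨i, hua i⟩⟩
    obtain ⟨hx1, hx2⟩ := (hW x).1 hx
    -- `y = L (P s x)` is fixed by `P t'`
    have hy : P t' (L (P s x)) = L (P s x) := by
      rw [← mem_range hs]
      have h1 : Tendsto (fun k => L (P (a k) x)) atTop (𝓝 (L (P s x))) :=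
        (L.continuous.tendsto _).comp (tendsto h ha hsup x)
      refine (closed_range hs t').mem_of_tendsto h1 (Eventually.of_forall fun k => ?_)
      have h2 : L (P (a k) x) ∈ closure (⋃ j, range (P (τ (a k) j))) := hτr (a k) ⟨x, rfl⟩
      refine closure_minimal (iUnion_subset fun j => ?_) (closed_range hs t') h2
      obtain ⟨m, hm⟩ := hτa k j
      exact range_mono hs (hm.trans (ht'.1 ⟨m, rfl⟩))
    have h3 : ∀ z, P t' (L z) = P t' z := by
      intro z
      have h4 := tendsto h ht ht' (L z)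
      have h5 := tendsto h ht ht' z
      refine tendsto_nhds_unique h4 (h5.congr fun k => ?_)
      exact (hL.left (t k) (htT k) z).symm
    rw [← hy, h3, (hs.comm t' s hts x).1, ← h3, hx2, map_zero]
  refine ⟨S, ⟨⟨?_, ?_⟩, ?_, ?_, ?_⟩⟩
  · -- nonempty
    obtain ⟨t, ht⟩ := hT'.1
    obtain ⟨s, hsS, -⟩ := hcof (fun _ => t) t (fun _ _ _ => le_rfl) (fun _ => ht) (by
      rw [range_const]
      exact isLUB_singleton)
    exact ⟨s, hsS⟩
  · -- directed
    rintro s1 ⟨⟨u1, hu1, hu1T, w1, hw1, hs1⟩, -⟩ s2 ⟨⟨u2, hu2, hu2T, w2, hw2, hs2⟩, -⟩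
    have hg : ∀ k, ∃ v ∈ T', u1 k ≤ v ∧ u2 k ≤ v := fun k => hT'.2 _ (hu1T k) _ (hu2T k)
    choose g hgT hg1 hg2 using hg
    obtain ⟨u, hu, huT, hgu⟩ := dom hT' g hgT
    obtain ⟨w, hw⟩ := hs.exists_sup u hu
    obtain ⟨s, hsS, hws⟩ := hcof u w hu huT hw
    refine ⟨s, hsS, hs1.trans ((sup_le_sup hw1 hw fun i => ⟨i, (hg1 i).trans (hgu i)⟩).trans hws),
      hs2.trans ((sup_le_sup hw2 hw fun i => ⟨i, (hg2 i).trans (hgu i)⟩).trans hws)⟩
  · -- closed under suprema
    intro f hf hfS t ht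
    refine ⟨?_, fun x hx => ?_⟩
    · have h1 : ∀ k, ∃ u : ℕ → Γ, Monotone u ∧ (∀ k, u k ∈ T') ∧ ∃ w, IsLUB (range u) w ∧ f k ≤ w :=
        fun k => (hfS k).1
      choose u hu huT w hw hfw using h1
      obtain ⟨v, hv, hvT, hgv⟩ := dom hT' (fun i => u i.unpair.1 i.unpair.2) (fun i => huT _ _)
      obtain ⟨z, hz⟩ := hs.exists_sup v hv
      refine ⟨v, hv, hvT, z, hz, ht.2 ?_⟩
      rintro _ ⟨k, rfl⟩
      refine (hfw k).trans (sup_le_sup (hw k) hz fun i => ⟨Nat.pair k i, ?_⟩)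
      have h2 := hgv (Nat.pair k i)
      simp only [Nat.unpair_pair] at h2
      exact h2
    · have h1 : Tendsto (fun k => L (P (f k) x)) atTop (𝓝 (L (P t x))) :=
        (L.continuous.tendsto _).comp (tendsto h hf ht x)
      refine tendsto_nhds_unique h1 (tendsto_const_nhds.congr fun k => ?_)
      exact ((hfS k).2 x hx).symm
  · -- invariance
    rintro s ⟨⟨u, hu, huT, w, hw, hsw⟩, hs0⟩ x hx
    rw [hW]
    exact ⟨hfix u w hu huT hw s hsw x, hs0 x hx⟩
  · -- union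
    intro x hx
    obtain ⟨hx1, -⟩ := (hW x).1 hx
    have h1 : x ∈ closure (⋃ t ∈ T', range (P t)) := by
      rw [← hL'.rng]
      exact ⟨x, hx1⟩
    obtain ⟨u, hu, huT, hxu⟩ := sep_seq hs hT' {x} (countable_singleton x).isSeparable
      (singleton_subset_iff.2 h1)
    obtain ⟨w, hw⟩ := hs.exists_sup u hu
    obtain ⟨s, hsS, hws⟩ := hcof u w hu huT hw
    refine ⟨s, hsS, ?_⟩
    have h2 : x ∈ range (P w) := by
      rw [hs.sup u hu w hw]
      exact hxu rfl
    exact (mem_range hs s x).1 (range_mono hs hws h2)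

end Pool.Agent.D0H65.MK
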